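import Pool.Agent.Lib.MP_dd0771_pr.Main

open MeasureTheory
open scoped ENNReal

namespace Pool.Agent.Results.MP_dd0771_pr.DimOne

open Pool.Agent.Lib.MP_dd0771_pr

/-- Dimension one: for every rate function, every product initial law of finite mean and every
healing rate in `[0, ∞]`, almost surely survival implies local survival. -/
theorem result (g : ℕ → ℝ) (Γm Γp : ℝ) (_h0 : g 0 = 0) (hΓm : 0 < Γm)
    (hg : ∀ n, Γm ≤ g (n + 1) - g n ∧ g (n + 1) - g n ≤ Γp)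
    (ν : Measure ℕ) [IsProbabilityMeasure ν] (hν : ∫⁻ n, (n : ℝ≥0∞) ∂ν ≠ ⊤) (δ : ℝ≥0∞) :
    ∀ᵐ ω ∂law ν g δ, WellPosed ω ∧ (Survives δ ω → LocalSurvival δ ω) :=
  main ν δ (fun n => (hg n).2) (by linarith [(hg 0).1, (hg 0).2]) (by linarith [(hg 0).1]) hν

end Pool.Agent.Results.MP_dd0771_pr.DimOne
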