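import Pool.Agent.Lib.MP_dd0771_pr.Z.Out
import Pool.Agent.Lib.MP_dd0771_pr.Sc.Disc

open MeasureTheory
open scoped ENNReal

namespace Pool.Agent.Results.MP_dd0771_pr.Supercritical

open Pool.Agent.Lib.MP_dd0771_pr.Z

/-- Dimension at least two: if the infection survives with positive probability at some smaller
density (same rate function, same healing rate), then almost surely survival implies local
survival. The laws `ν'` and `ν` are the one-site marginals of the invariant product measures. -/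
theorem result (d : ℕ) (hd : 2 ≤ d) (g : ℕ → ℝ) (Γm Γp : ℝ) (h0 : g 0 = 0) (hΓm : 0 < Γm)
    (hg : ∀ n, Γm ≤ g (n + 1) - g n ∧ g (n + 1) - g n ≤ Γp) (δ : ℝ≥0∞)
    (ν' ν : Measure ℕ) [IsProbabilityMeasure ν'] [IsProbabilityMeasure ν] (φ' φ : ℝ)
    (hφ' : 0 < φ') (hφ : 0 < φ)
    (hν' : ∀ n, g (n + 1) * ν'.real {n + 1} = φ' * ν'.real {n})
    (hν : ∀ n, g (n + 1) * ν.real {n + 1} = φ * ν.real {n})
    (hρ : ∫⁻ n, (n : ℝ≥0∞) ∂ν' < ∫⁻ n, (n : ℝ≥0∞) ∂ν)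
    (hS : 0 < law d ν' g δ {ω | Survives δ ω}) :
    ∀ᵐ ω ∂law d ν g δ, WellPosed ω ∧ (Survives δ ω → LocalSurvival δ ω) :=
  bridge (fun _ hF => Pool.Agent.Lib.MP_dd0771_pr.Sc.s_occ hd hF
      (Pool.Agent.Lib.MP_dd0771_pr.Sc.s_stat hd hF))
    (fun _ hF => Pool.Agent.Lib.MP_dd0771_pr.Sc.s_early hd hF)
    (fun _ hF => Pool.Agent.Lib.MP_dd0771_pr.Sc.disc hd hF) h0 hΓm hg hφ' hφ hν' hν hρ hS.ne'

end Pool.Agent.Results.MP_dd0771_pr.Supercritical
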